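import Mathlib

/-!
# Derivations of a field of characteristic zero with prescribed values
-/

set_option autoImplicit false

open MvPolynomial

namespace Pool.Agent.Y119.CB

/-- a homomorphism from a formally smooth algebra can be lifted -/
lemma exists_lift {K L B : Type*} [CommRing K] [CommRing L] [Algebra K L]
    [Algebra.FormallySmooth K L] [CommRing B] (φ : K →+* B) (g : B →+* L)
    (hg : Function.Surjective g) (hn : IsNilpotent (RingHom.ker g))
    (hc : g.comp φ = algebraMap K L) :
    ∃ ψ : L →+* B, g.comp ψ = RingHom.id L ∧ ψ.comp (algebraMap K L) = φ := by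
  let _ : Algebra K B := φ.toAlgebra
  let g' : B →ₐ[K] L := { g with commutes' := fun r => RingHom.congr_fun hc r }
  have hg' : Function.Surjective g' := hg
  have hn' : IsNilpotent (RingHom.ker (g' : B →+* L)) := hn
  refine ⟨(Algebra.FormallySmooth.liftOfSurjective (AlgHom.id K L) g' hg' hn' : L →+* B), ?_, ?_⟩
  · ext x
    exact Algebra.FormallySmooth.liftOfSurjective_apply (AlgHom.id K L) g' hg' hn' x
  · ext x
    exact AlgHom.commutes (Algebra.FormallySmooth.liftOfSurjective (AlgHom.id K L) g' hg' hn') x

/-- field extensions of characteristic zero are formally smooth -/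
lemma formallySmooth (K L : Type*) [Field K] [Field L] [Algebra K L] [CharZero K] :
    Algebra.FormallySmooth K L := by
  obtain ⟨s, hs⟩ := exists_isTranscendenceBasis K L
  have h1 : Algebra.IsAlgebraic (IntermediateField.adjoin K (Set.range ((↑) : s → L))) L := by
    have := hs.isAlgebraic_field
    exact this
  have h2 : CharZero (IntermediateField.adjoin K (Set.range ((↑) : s → L))) := inferInstance
  have h3 : Algebra.IsSeparable (IntermediateField.adjoin K (Set.range ((↑) : s → L))) L :=
    inferInstance
  exact Algebra.FormallySmooth.of_algebraicIndependent_of_isSeparable hs.1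

variable {k E σ : Type*} [Field k] [Field E] [Algebra k E] [CharZero k]

/-- the homomorphism of `k[X]` to the dual numbers given by `X_s ↦ φ_s + w_s ε` -/
noncomputable def dualHom (φ w : σ → E) : MvPolynomial σ k →ₐ[k] TrivSqZeroExt E E :=
  aeval fun s => TrivSqZeroExt.inl (φ s) + TrivSqZeroExt.inr (w s)

omit [CharZero k] in
lemma dualHom_fst (φ w : σ → E) (F : MvPolynomial σ k) :
    (dualHom φ w F).fst = aeval φ F := by
  induction F using MvPolynomial.induction_on with
  | C a => simp [dualHom, TrivSqZeroExt.algebraMap_eq_inl']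
  | add p q hp hq => simp only [map_add, TrivSqZeroExt.fst_add, hp, hq]
  | mul_X p s hp =>
    simp only [map_mul, TrivSqZeroExt.fst_mul, hp, aeval_X]
    simp [dualHom]

omit [CharZero k] in
lemma dualHom_snd [Fintype σ] (φ w : σ → E) (F : MvPolynomial σ k) :
    (dualHom φ w F).snd = ∑ s, aeval φ (pderiv s F) * w s := by
  classical
  induction F using MvPolynomial.induction_on with
  | C a => simp [dualHom, TrivSqZeroExt.algebraMap_eq_inl']
  | add p q hp hq =>
    simp only [map_add, TrivSqZeroExt.snd_add, hp, hq, add_mul, Finset.sum_add_distrib]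
  | mul_X p s hp =>
    rw [map_mul, TrivSqZeroExt.snd_mul, hp, dualHom_fst]
    have h1 : (dualHom (k := k) φ w (X s)).fst = φ s := by simp [dualHom]
    have h2 : (dualHom (k := k) φ w (X s)).snd = w s := by simp [dualHom]
    rw [h1, h2]
    have h3 : ∀ x, aeval φ (pderiv x (X s : MvPolynomial σ k)) = if x = s then (1 : E) else 0 := by
      intro x
      rw [pderiv_X]
      by_cases hx : x = s
      · subst hx; simp
      · have hx' : s ≠ x := fun h => hx h.symm
        simp [hx, hx']
    have h4 : ∀ x, aeval φ (pderiv x (p * X s)) * w x =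
        aeval φ p * (if x = s then w x else 0) + φ s * (aeval φ (pderiv x p) * w x) := by
      intro x
      rw [Derivation.leibniz, map_add, smul_eq_mul, smul_eq_mul, map_mul, map_mul, h3, aeval_X]
      split_ifs <;> ring
    rw [Finset.sum_congr rfl fun x _ => h4 x, Finset.sum_add_distrib, ← Finset.mul_sum,
      ← Finset.mul_sum, Finset.sum_ite_eq' Finset.univ s w, if_pos (Finset.mem_univ s)]
    simp [smul_eq_mul, mul_comm]

open scoped IntermediateField.algebraAdjoinAdjoin in
/-- **Derivations with prescribed values.** -/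
theorem exists_derivation [Fintype σ] (φ w : σ → E)
    (h : ∀ F : MvPolynomial σ k, aeval φ F = 0 → ∑ s, aeval φ (pderiv s F) * w s = 0) :
    ∃ D : Derivation k E E, ∀ s, D (φ s) = w s := by
  classical
  let A := Algebra.adjoin k (Set.range φ)
  let L := IntermediateField.adjoin k (Set.range φ)
  have hA : A = (aeval φ : MvPolynomial σ k →ₐ[k] E).range :=
    Algebra.adjoin_range_eq_range_aeval k φ
  -- the homomorphism on `A`
  have hA' : ∀ a : A, ∃ F : MvPolynomial σ k, aeval φ F = (a : E) := by
    intro a
    have : (a : E) ∈ (aeval φ : MvPolynomial σ k →ₐ[k] E).range := hA ▸ a.2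
    exact this
  have hker : ∀ F : MvPolynomial σ k, aeval φ F = 0 → dualHom φ w F = 0 := by
    intro F hF
    ext
    · rw [dualHom_fst, hF]; rfl
    · rw [dualHom_snd, h F hF]; rfl
  choose G hG using hA'
  have hG' : ∀ (F : MvPolynomial σ k) (a : A), aeval φ F = (a : E) →
      dualHom φ w F = dualHom φ w (G a) := by
    intro F a hF
    rw [← sub_eq_zero, ← map_sub]
    exact hker _ (by rw [map_sub, hF, hG, sub_self])
  let ψ : A →+* TrivSqZeroExt E E :=
    { toFun := fun a => dualHom φ w (G a)
      map_one' := by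
        rw [← hG' 1 1 (by simp), map_one]
      map_mul' := by
        intro a b
        rw [← hG' (G a * G b) (a * b) (by rw [map_mul, hG, hG]; rfl), map_mul]
      map_zero' := by
        rw [← hG' 0 0 (by simp), map_zero]
      map_add' := by
        intro a b
        rw [← hG' (G a + G b) (a + b) (by rw [map_add, hG, hG]; rfl), map_add] }
  have hψ1 : ∀ a : A, (ψ a).fst = (a : E) := by
    intro a
    change (dualHom φ w (G a)).fst = _
    rw [dualHom_fst, hG]
  have hunit : ∀ y : nonZeroDivisors A, IsUnit (ψ y) := by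
    intro y
    rw [TrivSqZeroExt.isUnit_iff_isUnit_fst, hψ1]
    refine IsUnit.mk0 _ fun h0 => ?_
    exact nonZeroDivisors.ne_zero y.2 (Subtype.ext h0)
  obtain ⟨θ, hθ⟩ : ∃ θ : L →+* TrivSqZeroExt E E, ∀ a : A,
      θ ⟨a, IntermediateField.algebra_adjoin_le_adjoin k _ a.2⟩ = ψ a := by
    refine ⟨IsLocalization.lift (M := nonZeroDivisors A) (S := L) hunit, fun a => ?_⟩
    exact IsLocalization.lift_eq hunit a
  have hθ1 : ∀ x : L, (θ x).fst = (x : E) := by
    intro x
    obtain ⟨a, ha, b, hb, hab⟩ := IntermediateField.mem_adjoin_iff_div.1 x.2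
    by_cases hb0 : b = 0
    · have hx : x = 0 := Subtype.ext (by rw [hab, hb0]; simp)
      rw [hx, map_zero]; rfl
    · have h1 : x * ⟨b, IntermediateField.algebra_adjoin_le_adjoin k _ hb⟩ =
          ⟨a, IntermediateField.algebra_adjoin_le_adjoin k _ ha⟩ := by
        apply Subtype.ext
        change (x : E) * b = a
        rw [hab]
        field_simp
      have h2 := congrArg (fun y => (θ y).fst) h1
      simp only [map_mul, TrivSqZeroExt.fst_mul] at h2
      rw [hθ ⟨b, hb⟩, hθ ⟨a, ha⟩, hψ1, hψ1] at h2
      rw [hab]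
      field_simp
      exact h2
  have : CharZero L := inferInstance
  have hfs := formallySmooth L E
  have hnil : IsNilpotent (RingHom.ker (TrivSqZeroExt.fstHom E E E : TrivSqZeroExt E E →+* E)) := by
    refine ⟨2, ?_⟩
    refine Eq.trans (sq (RingHom.ker (TrivSqZeroExt.fstHom E E E : TrivSqZeroExt E E →+* E))) ?_
    rw [Ideal.zero_eq_bot, eq_bot_iff, Ideal.mul_le]
    intro r hr s hs
    have h1 : r.fst = 0 := hr
    have h2 : s.fst = 0 := hs
    rw [Ideal.mem_bot]
    ext
    · rw [TrivSqZeroExt.fst_mul, h1, zero_mul]; rfl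
    · rw [TrivSqZeroExt.snd_mul, h1, h2]; simp
  have hcomp : (TrivSqZeroExt.fstHom E E E : TrivSqZeroExt E E →+* E).comp θ = algebraMap L E := by
    ext x
    exact hθ1 x
  obtain ⟨Ψ, hΨ1, hΨ2⟩ := exists_lift (K := L) (L := E) (B := TrivSqZeroExt E E) θ
    (TrivSqZeroExt.fstHom E E E : TrivSqZeroExt E E →+* E)
    (fun x => ⟨TrivSqZeroExt.inl x, rfl⟩) hnil hcomp
  · have hf : ∀ x, (Ψ x).fst = x := fun x => RingHom.congr_fun hΨ1 x
    have hL : ∀ x : L, Ψ (x : E) = θ x := fun x => RingHom.congr_fun hΨ2 x
    have hA2 : ∀ (F : MvPolynomial σ k), Ψ (aeval φ F) = dualHom φ w F := by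
      intro F
      have hmem : aeval φ F ∈ A := by
        rw [hA]; exact ⟨F, rfl⟩
      have h1 := hL ⟨aeval φ F, IntermediateField.algebra_adjoin_le_adjoin k _ hmem⟩
      rw [hθ ⟨aeval φ F, hmem⟩] at h1
      rw [h1]
      exact (hG' F ⟨aeval φ F, hmem⟩ rfl).symm
    let D : Derivation k E E :=
      { toFun := fun x => (Ψ x).snd
        map_add' := fun x y => by simp
        map_smul' := fun c x => by
          have h1 : Ψ (algebraMap k E c) = algebraMap k (TrivSqZeroExt E E) c := by
            have := hA2 (C c)
            rw [aeval_C] at this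
            rw [this]
            exact AlgHom.commutes _ c
          rw [Algebra.smul_def, map_mul, h1, TrivSqZeroExt.snd_mul]
          simp [TrivSqZeroExt.algebraMap_eq_inl', Algebra.smul_def]
        map_one_eq_zero' := by simp
        leibniz' := fun x y => by
          change (Ψ (x * y)).snd = x * (Ψ y).snd + y * (Ψ x).snd
          rw [map_mul, TrivSqZeroExt.snd_mul, hf, hf]
          simp [smul_eq_mul, mul_comm] }
    refine ⟨D, fun s => ?_⟩
    change (Ψ (φ s)).snd = w s
    have h1 := hA2 (X s)
    rw [aeval_X] at h1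
    rw [h1]
    simp [dualHom]

end Pool.Agent.Y119.CB
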